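import Pool.Agent.H921R2.TatePole.Base
import Pool.Agent.R426.QC.Ep

/-!
# Counting ideals of bounded norm (Rankin's trick), uniformly in the number field
-/

set_option autoImplicit false

namespace Pool.Agent.H10MU

open NumberField IsDedekindDomain Filter Topology Module
open Pool.Agent.H921R2.TatePole (nm nm_ne_zero two_le_nm below deg nm_eq card_above sum_ideals_le
  below_le_nm fiber_card_le ZK nm_rpow_le_half)
open Pool.Agent.R426.QC (CMI hasProdI)

/-- the constant -/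
noncomputable def Zc (x : ℝ) : ℝ := Real.exp (2 * ∑' n : ℕ, (n : ℝ) ^ (-x))

section
variable {K : Type} [Field K] [NumberField K]

open Classical in
/-- the term of an ideal -/
noncomputable def fR (x : ℝ) (I : Ideal (𝓞 K)) : ℝ :=
  if I = ⊥ then 0 else ((Ideal.absNorm I : ℕ) : ℝ) ^ (-x)

lemma fR_nonneg (x : ℝ) (I : Ideal (𝓞 K)) : 0 ≤ fR x I := by
  unfold fR
  split_ifs
  · exact le_rfl
  · positivity

lemma summable_fR {x : ℝ} (hx : 1 < x) : Summable (fR (K := K) x) := by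
  classical
  refine summable_of_sum_le (fR_nonneg x) (c := ZK K x) fun A => ?_
  have h1 : ∑ I ∈ A, fR x I = ∑ I ∈ A.filter (fun I => I ≠ ⊥), fR x I := by
    symm
    refine Finset.sum_subset (Finset.filter_subset _ _) fun I hI hI2 => ?_
    have : I = ⊥ := by
      by_contra h
      exact hI2 (Finset.mem_filter.2 ⟨hI, h⟩)
    unfold fR
    rw [if_pos this]
  rw [h1]
  refine le_trans (le_of_eq ?_) (sum_ideals_le hx (A.filter (fun I => I ≠ ⊥))
    fun I hI => (Finset.mem_filter.1 hI).2)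
  refine Finset.sum_congr rfl fun I hI => ?_
  unfold fR
  rw [if_neg (Finset.mem_filter.1 hI).2]

lemma cmi {x : ℝ} (hx : 1 < x) : CMI (fun I : Ideal (𝓞 K) => ((fR x I : ℝ) : ℂ)) where
  zero := by simp [fR]
  one := by
    unfold fR
    rw [if_neg (by exact top_ne_bot), Ideal.absNorm_top]
    simp
  mul I J := by
    rw [← Complex.ofReal_mul]
    congr 1
    unfold fR
    by_cases hI : I = ⊥
    · rw [if_pos hI, if_pos (by rw [hI, Ideal.bot_mul]), zero_mul]
    · by_cases hJ : J = ⊥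
      · rw [if_pos hJ, if_pos (by rw [hJ, Ideal.mul_bot]), mul_zero]
      · rw [if_neg hI, if_neg hJ, if_neg (by
          intro h
          rcases Ideal.mul_eq_bot.mp h with h | h
          · exact hI h
          · exact hJ h), map_mul]
        push_cast
        rw [Real.mul_rpow (by positivity) (by positivity)]
  summ := Complex.summable_ofReal.2 (summable_fR hx)

lemma inv_one_sub_le {t : ℝ} (h0 : 0 ≤ t) (h1 : t ≤ 1 / 2) : (1 - t)⁻¹ ≤ Real.exp (2 * t) := by
  have h2 : (1 - t)⁻¹ ≤ 1 + 2 * t := by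
    rw [inv_le_iff_one_le_mul₀ (by linarith)]
    nlinarith
  have h3 := Real.add_one_le_exp (2 * t)
  linarith

open Classical in
lemma sum_nm_le {x : ℝ} (hx : 1 < x) (S : Finset (HeightOneSpectrum (𝓞 K))) :
    ∑ v ∈ S, (nm v : ℝ) ^ (-x) ≤ (finrank ℚ K : ℝ) * ∑' n : ℕ, (n : ℝ) ^ (-x) := by
  have hs : Summable (fun n : ℕ => (n : ℝ) ^ (-x)) := Real.summable_nat_rpow.2 (by linarith)
  have h1 : ∑ v ∈ S, (nm v : ℝ) ^ (-x) ≤ ∑ v ∈ S, ((below v : ℕ) : ℝ) ^ (-x) := by
    refine Finset.sum_le_sum fun v _ => ?_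
    refine Real.rpow_le_rpow_of_nonpos ?_ ?_ (by linarith)
    · exact_mod_cast (below v).2.pos
    · exact_mod_cast below_le_nm v
  refine h1.trans ?_
  have h2 : ∑ v ∈ S, ((below v : ℕ) : ℝ) ^ (-x) =
      ∑ p ∈ S.image below, ((S.filter (fun v => below v = p)).card : ℝ) * ((p : ℕ) : ℝ) ^ (-x) := by
    rw [Finset.sum_comp (fun p : Nat.Primes => ((p : ℕ) : ℝ) ^ (-x)) below]
    simp
  rw [h2]
  have h3 : ∑ p ∈ S.image below, ((S.filter (fun v => below v = p)).card : ℝ) * ((p : ℕ) : ℝ) ^ (-x)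
      ≤ ∑ p ∈ S.image below, (finrank ℚ K : ℝ) * ((p : ℕ) : ℝ) ^ (-x) := by
    refine Finset.sum_le_sum fun p _ => ?_
    refine mul_le_mul_of_nonneg_right ?_ (by positivity)
    exact_mod_cast card_above p _ fun v hv => (Finset.mem_filter.1 hv).2
  refine h3.trans ?_
  rw [← Finset.mul_sum]
  refine mul_le_mul_of_nonneg_left ?_ (by positivity)
  have h4 : ∑ p ∈ S.image below, ((p : ℕ) : ℝ) ^ (-x) =
      ∑ n ∈ (S.image below).map (⟨fun p : Nat.Primes => (p : ℕ), Subtype.val_injective⟩ : Nat.Primes ↪ ℕ),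
        (n : ℝ) ^ (-x) := by
    rw [Finset.sum_map]
    rfl
  rw [h4]
  exact hs.sum_le_tsum _ fun n _ => by positivity

theorem tsum_fR_le {x : ℝ} (hx : 1 < x) :
    ∑' I : Ideal (𝓞 K), fR x I ≤ Zc x ^ finrank ℚ K := by
  classical
  have h := hasProdI (cmi (K := K) hx)
  rw [← Complex.ofReal_tsum] at h
  have h1 : Tendsto (fun S : Finset (HeightOneSpectrum (𝓞 K)) =>
      ∏ v ∈ S, (1 - ((fR x v.asIdeal : ℝ) : ℂ))⁻¹) atTop
      (𝓝 ((∑' I : Ideal (𝓞 K), fR x I : ℝ) : ℂ)) := h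
  have h2 := h1.norm
  have h3 : ‖((∑' I : Ideal (𝓞 K), fR x I : ℝ) : ℂ)‖ = ∑' I : Ideal (𝓞 K), fR x I := by
    rw [Complex.norm_real, Real.norm_of_nonneg (tsum_nonneg (fR_nonneg x))]
  rw [h3] at h2
  refine le_of_tendsto h2 (Eventually.of_forall fun S => ?_)
  rw [norm_prod]
  have h4 : ∀ v ∈ S, ‖(1 - ((fR x v.asIdeal : ℝ) : ℂ))⁻¹‖ ≤ Real.exp (2 * (nm v : ℝ) ^ (-x)) := by
    intro v _
    have h5 : fR x v.asIdeal = (nm v : ℝ) ^ (-x) := by
      unfold fR nm
      rw [if_neg v.ne_bot]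
    have h6 := nm_rpow_le_half v hx.le
    have h7 : (0 : ℝ) ≤ (nm v : ℝ) ^ (-x) := by positivity
    rw [h5, norm_inv, ← Complex.ofReal_one, ← Complex.ofReal_sub, Complex.norm_real,
      Real.norm_of_nonneg (by linarith)]
    exact inv_one_sub_le h7 h6
  refine (Finset.prod_le_prod (fun v _ => norm_nonneg _) h4).trans ?_
  rw [← Real.exp_sum, ← Finset.mul_sum]
  unfold Zc
  rw [← Real.exp_nat_mul]
  refine Real.exp_le_exp.2 ?_
  have := sum_nm_le (K := K) hx S
  nlinarith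

/-- **Rankin's bound for the number of ideals of norm at most `y`.** -/
theorem card_le {x y : ℝ} (hx : 1 < x) (hy : 0 ≤ y) (A : Finset (Ideal (𝓞 K)))
    (hA : ∀ I ∈ A, I ≠ ⊥ ∧ ((Ideal.absNorm I : ℕ) : ℝ) ≤ y) :
    (A.card : ℝ) ≤ y ^ x * Zc x ^ finrank ℚ K := by
  have h1 : (A.card : ℝ) ≤ ∑ I ∈ A, y ^ x * fR x I := by
    rw [← nsmul_one, ← Finset.sum_const]
    refine Finset.sum_le_sum fun I hI => ?_
    obtain ⟨h2, h3⟩ := hA I hI
    unfold fR
    rw [if_neg h2]
    have h4 : (0 : ℝ) < ((Ideal.absNorm I : ℕ) : ℝ) := by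
      have : Ideal.absNorm I ≠ 0 := by
        rw [Ne, Ideal.absNorm_eq_zero_iff]
        exact h2
      exact_mod_cast Nat.pos_of_ne_zero this
    rw [Real.rpow_neg h4.le, ← div_eq_mul_inv, one_le_div (by positivity)]
    exact Real.rpow_le_rpow h4.le h3 (by linarith)
  refine h1.trans ?_
  rw [← Finset.mul_sum]
  refine mul_le_mul_of_nonneg_left ?_ (by positivity)
  exact ((summable_fR hx).sum_le_tsum _ fun I _ => fR_nonneg x I).trans (tsum_fR_le hx)

lemma Zc_one_le (x : ℝ) : 1 ≤ Zc x := by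
  unfold Zc
  rw [Real.one_le_exp_iff]
  have : 0 ≤ ∑' n : ℕ, (n : ℝ) ^ (-x) := tsum_nonneg fun n => by positivity
  linarith

open Nat in
/-- **The class number in terms of the discriminant.** -/
theorem classNumber_le {x : ℝ} (hx : 1 < x) :
    (classNumber K : ℝ) ≤ (2 ^ finrank ℚ K * Real.sqrt |(discr K : ℝ)|) ^ x * Zc x ^ finrank ℚ K := by
  classical
  set y : ℝ := 2 ^ finrank ℚ K * Real.sqrt |(discr K : ℝ)| with hy
  have hy0 : 0 ≤ y := by positivity
  have hfin : {I : Ideal (𝓞 K) | I ≠ ⊥ ∧ ((Ideal.absNorm I : ℕ) : ℝ) ≤ y}.Finite := by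
    refine (Ideal.finite_setOfPred_absNorm_le (S := 𝓞 K) ⌊y⌋₊).subset fun I hI => ?_
    exact Nat.le_floor hI.2
  refine le_trans ?_ (card_le hx hy0 hfin.toFinset fun I hI => hfin.mem_toFinset.1 hI)
  have hM : (4 / Real.pi) ^ InfinitePlace.nrComplexPlaces K *
      ((finrank ℚ K)! / (finrank ℚ K) ^ (finrank ℚ K) * Real.sqrt |(discr K : ℝ)|) ≤ y := by
    have h1 : (4 / Real.pi) ^ InfinitePlace.nrComplexPlaces K ≤ 2 ^ finrank ℚ K := by
      have h2 : 4 / Real.pi ≤ 2 := by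
        rw [div_le_iff₀ Real.pi_pos]
        linarith [Real.pi_gt_three]
      have h3 : InfinitePlace.nrComplexPlaces K ≤ finrank ℚ K := by
        have := InfinitePlace.card_add_two_mul_card_eq_rank K
        omega
      calc (4 / Real.pi) ^ InfinitePlace.nrComplexPlaces K
          ≤ 2 ^ InfinitePlace.nrComplexPlaces K :=
            pow_le_pow_left₀ (by positivity) h2 _
        _ ≤ 2 ^ finrank ℚ K := pow_le_pow_right₀ (by norm_num) h3
    have h4 : ((finrank ℚ K)! / (finrank ℚ K) ^ (finrank ℚ K) : ℝ) ≤ 1 := by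
      have hpos : (0 : ℝ) < (finrank ℚ K : ℝ) ^ (finrank ℚ K) := by
        have : 0 < finrank ℚ K := finrank_pos
        positivity
      rw [div_le_one hpos]
      exact_mod_cast Nat.factorial_le_pow (finrank ℚ K)
    rw [hy]
    refine mul_le_mul h1 ?_ (by positivity) (by positivity)
    exact mul_le_of_le_one_left (by positivity) h4
  have hsurj : ∀ C : ClassGroup (𝓞 K), ∃ I : {I // I ∈ hfin.toFinset},
      ∃ h : I.1 ∈ nonZeroDivisors (Ideal (𝓞 K)), ClassGroup.mk0 ⟨I.1, h⟩ = C := by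
    intro C
    obtain ⟨I, hI, hle⟩ := exists_ideal_in_class_of_norm_le C
    refine ⟨⟨I.1, ?_⟩, I.2, hI⟩
    rw [Set.Finite.mem_toFinset]
    refine ⟨nonZeroDivisors.coe_ne_zero I, ?_⟩
    exact hle.trans hM
  choose g hg1 hg2 using hsurj
  have hinj : Function.Injective g := by
    intro C D h
    rw [← hg2 C, ← hg2 D]
    congr 1
    refine Subtype.ext ?_
    show (g C).1 = (g D).1
    rw [h]
  have := Fintype.card_le_of_injective g hinj
  rw [Fintype.card_coe] at this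
  unfold classNumber
  exact_mod_cast this

end

end Pool.Agent.H10MU
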