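import Mathlib

/-!
# The discriminant of the composite with the first layer
-/

set_option autoImplicit false

namespace Pool.Agent.H10MU

open NumberField IntermediateField Module

/-- the discriminant of a subfield of degree `p` of the field of roots of unity of order `p ^ 2` -/
theorem natAbs_discr_layer {p : ℕ} [hp : Fact p.Prime] (h3 : 3 ≤ p) (B C : Type) [Field B] [NumberField B]
    [Field C] [NumberField C] [Algebra B C] [IsCyclotomicExtension {p ^ 2} ℚ C]
    (hB : finrank ℚ B = p) : ∃ a ≤ 2 * p, (discr B).natAbs = p ^ a := by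
  have h1 := natAbs_discr_eq_absNorm_differentIdeal_mul_natAbs_discr_pow B (𝓞 B) C (𝓞 C)
  have hC : finrank ℚ C = p * (p - 1) := by
    rw [IsCyclotomicExtension.finrank (n := p ^ 2) C (Polynomial.cyclotomic.irreducible_rat
      (pow_pos hp.out.pos 2)), Nat.totient_prime_pow hp.out (by norm_num)]
    simp
  have hBC : finrank B C = p - 1 := by
    have h2 := finrank_mul_finrank ℚ B C
    rw [hB, hC] at h2
    exact Nat.eq_of_mul_eq_mul_left hp.out.pos h2
  have hdC : (discr C).natAbs = p ^ (p * ((p - 1) * 2 - 1)) := by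
    have h2 := IsCyclotomicExtension.Rat.discr_prime_pow p 2 C
    rw [h2, Int.natAbs_mul, Int.natAbs_pow, Int.natAbs_pow]
    simp
  rw [hdC, hBC] at h1
  have h4 : (discr B).natAbs ^ (p - 1) ∣ p ^ (p * ((p - 1) * 2 - 1)) := by
    rw [h1]
    exact dvd_mul_left _ _
  have h5 : (discr B).natAbs ∣ p ^ (p * ((p - 1) * 2 - 1)) :=
    (dvd_pow_self _ (by omega)).trans h4
  obtain ⟨a, _, ha⟩ := (Nat.dvd_prime_pow hp.out).1 h5
  refine ⟨a, ?_, ha⟩
  rw [ha, ← pow_mul, Nat.pow_dvd_pow_iff_le_right hp.out.one_lt] at h4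
  by_contra hcon
  rw [not_le] at hcon
  have h6 : (2 * p) * (p - 1) ≤ a * (p - 1) := Nat.mul_le_mul_right _ hcon.le
  have h7 : p * ((p - 1) * 2 - 1) < 2 * p * (p - 1) := by
    have h8 : (p - 1) * 2 - 1 < (p - 1) * 2 := by omega
    have h9 := Nat.mul_lt_mul_of_pos_left h8 hp.out.pos
    calc p * ((p - 1) * 2 - 1) < p * ((p - 1) * 2) := h9
      _ = 2 * p * (p - 1) := by ring
  omega

/-- the discriminant of a composite -/
theorem natAbs_discr_sup (L : Type) [Field L] [NumberField L] [inst : Algebra ℚ L]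
    (K₁ K₂ : IntermediateField ℚ L)
    [IsGalois ℚ K₂] (h₂ : K₁ ⊔ K₂ = ⊤) (h₃ : IsCoprime (discr K₁) (discr K₂)) :
    (discr L).natAbs = (discr K₁).natAbs ^ finrank ℚ K₂ * (discr K₂).natAbs ^ finrank ℚ K₁ ∧
      finrank ℚ L = finrank ℚ K₁ * finrank ℚ K₂ := by
  obtain rfl : inst = DivisionRing.toRatAlgebra := Subsingleton.elim _ _
  have h₁ : K₁.LinearDisjoint K₂ :=
    (linearDisjoint_of_isGalois_isCoprime_discr L K₂ K₁ h₃.symm).symm
  refine ⟨natAbs_discr_eq_natAbs_discr_pow_mul_natAbs_discr_pow L K₁ K₂ h₁ h₂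
    (isCoprime_differentIdeal_of_isCoprime_discr L h₃), ?_⟩
  rw [← h₁.finrank_sup, h₂, finrank_top']

/-- the composite `K B`, `B` a subfield of degree `p` of the field of roots of unity of order
`p ^ 2` -/
theorem discr_comp (K : IntermediateField ℚ ℂ) [NumberField K] {p : ℕ} (hp : p.Prime)
    (h3 : 3 ≤ p) (hK : (discr K).natAbs < p) (B : IntermediateField ℚ ℂ)
    (hB : B ≤ IntermediateField.adjoin ℚ {z : ℂ | z ^ (p ^ 2) = 1}) (hBp : finrank ℚ B = p)
    [NumberField ↥(K ⊔ B)] :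
    finrank ℚ ↥(K ⊔ B) = finrank ℚ K * p ∧
      ∃ a ≤ 2 * p, (discr ↥(K ⊔ B)).natAbs = (discr K).natAbs ^ p * (p ^ a) ^ finrank ℚ K := by
  have : Fact p.Prime := ⟨hp⟩
  set C : IntermediateField ℚ ℂ := IntermediateField.adjoin ℚ {z : ℂ | z ^ (p ^ 2) = 1} with hC
  have hcyc : IsCyclotomicExtension {p ^ 2} ℚ C := by
    have h := IntermediateField.isCyclotomicExtension_adjoin_of_exists_isPrimitiveRoot {p ^ 2} ℚ ℂ
      (fun n _ hn => ⟨_, Complex.isPrimitiveRoot_exp n hn⟩)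
    have hset : {b : ℂ | ∃ n ∈ ({p ^ 2} : Set ℕ), n ≠ 0 ∧ b ^ n = 1} = {z : ℂ | z ^ (p ^ 2) = 1} := by
      ext z
      simp only [Set.mem_singleton_iff, Set.mem_ofPred_eq, exists_eq_left]
      exact ⟨fun h => h.2, fun h => ⟨(pow_pos hp.pos 2).ne', h⟩⟩
    rw [hset] at h
    exact h
  have : NumberField C := IsCyclotomicExtension.numberField {p ^ 2} ℚ C
  have hab : @IsAbelianGalois ℚ C _ _ C.algebra' := by
    have h := IsCyclotomicExtension.isAbelianGalois {p ^ 2} ℚ C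
    convert h
    exact Subsingleton.elim _ _
  have : IsAbelianGalois ℚ B := @IsAbelianGalois.of_algHom ℚ B C _ _ _ _ C.algebra' (IntermediateField.inclusion hB) hab
  let _ : Algebra B C := (IntermediateField.inclusion hB).toRingHom.toAlgebra
  have : FiniteDimensional ℚ B := FiniteDimensional.of_finrank_pos (by rw [hBp]; exact hp.pos)
  have : NumberField B := ⟨⟩
  obtain ⟨a, ha, hda⟩ := natAbs_discr_layer h3 B C hBp
  let K₁ := restrict (le_sup_left : K ≤ K ⊔ B)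
  let K₂ := restrict (le_sup_right : B ≤ K ⊔ B)
  let e₁ : K ≃ₐ[ℚ] K₁ := restrictAlgEquiv _
  let e₂ : B ≃ₐ[ℚ] K₂ := restrictAlgEquiv _
  have : IsGalois ℚ K₂ := IsGalois.of_algEquiv e₂
  have h₂ : K₁ ⊔ K₂ = ⊤ := by
    rw [← lift_inj, lift_top, lift_sup, lift_restrict le_sup_left, lift_restrict le_sup_right]
  have hd₁ : discr K = discr K₁ := discr_eq_discr_of_algEquiv K e₁
  have hd₂ : discr B = discr K₂ := discr_eq_discr_of_algEquiv B e₂
  have hf₁ : finrank ℚ K = finrank ℚ K₁ := e₁.toLinearEquiv.finrank_eq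
  have hf₂ : finrank ℚ B = finrank ℚ K₂ := e₂.toLinearEquiv.finrank_eq
  have h₃ : IsCoprime (discr K₁) (discr K₂) := by
    rw [← hd₁, ← hd₂, Int.isCoprime_iff_gcd_eq_one, Int.gcd_eq_natAbs, hda]
    refine Nat.Coprime.pow_right a ?_
    refine (Nat.Coprime.symm ?_)
    rw [hp.coprime_iff_not_dvd]
    intro hdvd
    exact absurd (Nat.le_of_dvd (Int.natAbs_pos.2 (discr_ne_zero K)) hdvd) (by omega)
  obtain ⟨h4, h5⟩ := natAbs_discr_sup ↥(K ⊔ B) K₁ K₂ h₂ h₃
  rw [← hf₁, ← hf₂, hBp] at h5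
  rw [← hd₁, ← hd₂, ← hf₁, ← hf₂, hBp, hda] at h4
  exact ⟨h5, a, ha, h4⟩

end Pool.Agent.H10MU
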