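import Pool.Agent.H55.MU.Stm
import Pool.Agent.H10MU.A
import Pool.Agent.H10MU.C

/-!
# Project MU, part CLNO: the class number of the composite with the first layer
-/

set_option autoImplicit false

namespace Pool.Agent.H10MU

open NumberField IntermediateField Module

/-- the final inequality -/
theorem final_ineq (n p a : ℕ) (D Z x h S : ℝ) (hn : 1 ≤ n) (hp : 1 ≤ p) (hp1 : 4 * (n + 1) ≤ p)
    (hD : 1 ≤ D) (hZ : 1 ≤ Z) (hx : x = 1 + 1 / (2 * (n : ℝ))) (ha : a ≤ 2 * p)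
    (hS : S = D ^ p * ((p : ℝ) ^ a) ^ n)
    (hM : ((2 ^ n * D) ^ 2 * Z ^ n) ^ 4 < (p : ℝ))
    (hh : h ≤ (2 ^ (n * p) * Real.sqrt S) ^ x * Z ^ (n * p)) :
    h < (p : ℝ) ^ ((n + 1) * (p - 1)) := by
  have hn' : (1 : ℝ) ≤ n := by exact_mod_cast hn
  have hp' : (1 : ℝ) ≤ p := by exact_mod_cast hp
  have hp0 : (0 : ℝ) < p := by linarith
  have hx2 : x ≤ 2 := by
    rw [hx]
    have : 1 / (2 * (n : ℝ)) ≤ 1 := by
      rw [div_le_one (by positivity)]
      linarith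
    linarith
  have hx1 : 1 < x := by
    rw [hx]
    have : 0 < 1 / (2 * (n : ℝ)) := by positivity
    linarith
  have hnx : (n : ℝ) * x = n + 1 / 2 := by
    rw [hx]
    field_simp
  have hsq : Real.sqrt S ≤ D ^ p * (p : ℝ) ^ (p * n) := by
    rw [Real.sqrt_le_left (by positivity), hS, mul_pow]
    refine mul_le_mul ?_ ?_ (by positivity) (by positivity)
    · rw [← pow_mul]
      exact pow_le_pow_right₀ hD (by omega)
    · rw [← pow_mul, ← pow_mul]
      refine pow_le_pow_right₀ hp' ?_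
      calc a * n ≤ 2 * p * n := Nat.mul_le_mul_right _ ha
        _ = p * n * 2 := by ring
  have hy : 2 ^ (n * p) * Real.sqrt S ≤ (2 ^ n * D * (p : ℝ) ^ n) ^ p := by
    calc 2 ^ (n * p) * Real.sqrt S ≤ 2 ^ (n * p) * (D ^ p * (p : ℝ) ^ (p * n)) :=
          mul_le_mul_of_nonneg_left hsq (by positivity)
      _ = (2 ^ n * D * (p : ℝ) ^ n) ^ p := by
          rw [mul_pow, mul_pow, ← pow_mul, ← pow_mul, mul_comm p n, mul_assoc]
  have h2D : (1 : ℝ) ≤ 2 ^ n * D := by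
    have : (1 : ℝ) ≤ 2 ^ n := one_le_pow₀ (by norm_num)
    nlinarith
  have hyx : (2 ^ (n * p) * Real.sqrt S) ^ x ≤
      ((2 ^ n * D) ^ 2) ^ p * (p : ℝ) ^ ((n : ℝ) * p + p / 2) := by
    calc (2 ^ (n * p) * Real.sqrt S) ^ x ≤ ((2 ^ n * D * (p : ℝ) ^ n) ^ p) ^ x :=
          Real.rpow_le_rpow (by positivity) hy (by linarith)
      _ = (2 ^ n * D) ^ ((p : ℝ) * x) * ((p : ℝ) ^ n) ^ ((p : ℝ) * x) := by
          rw [← Real.rpow_natCast (2 ^ n * D * (p : ℝ) ^ n) p, ← Real.rpow_mul (by positivity),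
            Real.mul_rpow (by positivity) (by positivity)]
      _ ≤ ((2 ^ n * D) ^ 2) ^ p * (p : ℝ) ^ ((n : ℝ) * p + p / 2) := by
          refine mul_le_mul ?_ ?_ (by positivity) (by positivity)
          · rw [← pow_mul, ← Real.rpow_natCast (2 ^ n * D) (2 * p)]
            refine Real.rpow_le_rpow_of_exponent_le h2D ?_
            push_cast
            nlinarith
          · rw [← Real.rpow_natCast (p : ℝ) n, ← Real.rpow_mul (by positivity)]
            refine le_of_eq ?_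
            congr 1
            calc (n : ℝ) * (p * x) = p * (n * x) := by ring
              _ = p * (n + 1 / 2) := by rw [hnx]
              _ = n * p + p / 2 := by ring
  set M : ℝ := (2 ^ n * D) ^ 2 * Z ^ n with hMdef
  have hM1 : 1 ≤ M := by
    have h1 : (1 : ℝ) ≤ (2 ^ n * D) ^ 2 := one_le_pow₀ h2D
    have h2 : (1 : ℝ) ≤ Z ^ n := one_le_pow₀ hZ
    rw [hMdef]
    nlinarith
  have hh2 : h ≤ M ^ p * (p : ℝ) ^ ((n : ℝ) * p + p / 2) := by
    calc h ≤ (2 ^ (n * p) * Real.sqrt S) ^ x * Z ^ (n * p) := hh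
      _ ≤ (((2 ^ n * D) ^ 2) ^ p * (p : ℝ) ^ ((n : ℝ) * p + p / 2)) * Z ^ (n * p) :=
          mul_le_mul_of_nonneg_right hyx (by positivity)
      _ = M ^ p * (p : ℝ) ^ ((n : ℝ) * p + p / 2) := by
          rw [hMdef, mul_pow, pow_mul Z]
          ring
  have hMp : M < (p : ℝ) ^ (1 / 4 : ℝ) := by
    have h1 : M = (M ^ 4) ^ (1 / 4 : ℝ) := by
      rw [← Real.rpow_natCast M 4, ← Real.rpow_mul (by linarith)]
      norm_num
    rw [h1]
    exact Real.rpow_lt_rpow (by positivity) hM (by norm_num)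
  have hMp2 : M ^ p < (p : ℝ) ^ ((p : ℝ) / 4) := by
    calc M ^ p < ((p : ℝ) ^ (1 / 4 : ℝ)) ^ p := pow_lt_pow_left₀ hMp (by linarith) (by omega)
      _ = (p : ℝ) ^ ((p : ℝ) / 4) := by
          rw [← Real.rpow_natCast, ← Real.rpow_mul (by positivity)]
          congr 1
          ring
  calc h ≤ M ^ p * (p : ℝ) ^ ((n : ℝ) * p + p / 2) := hh2
    _ < (p : ℝ) ^ ((p : ℝ) / 4) * (p : ℝ) ^ ((n : ℝ) * p + p / 2) :=
        mul_lt_mul_of_pos_right hMp2 (by positivity)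
    _ = (p : ℝ) ^ ((p : ℝ) / 4 + ((n : ℝ) * p + p / 2)) := (Real.rpow_add hp0 _ _).symm
    _ ≤ (p : ℝ) ^ (((n + 1) * (p - 1) : ℕ) : ℝ) := by
        refine Real.rpow_le_rpow_of_exponent_le hp' ?_
        rw [Nat.cast_mul, Nat.cast_sub hp]
        push_cast
        have : (4 : ℝ) * (n + 1) ≤ p := by exact_mod_cast hp1
        nlinarith
    _ = (p : ℝ) ^ ((n + 1) * (p - 1)) := by rw [Real.rpow_natCast]

/-- **CLNO.** -/
theorem main : Pool.Agent.H55.MU.S_CLNO := by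
  intro K hfd
  have hNF : NumberField K := ⟨⟩
  set n := finrank ℚ K with hn
  have hn1 : 1 ≤ n := finrank_pos
  set x : ℝ := 1 + 1 / (2 * (n : ℝ)) with hx
  have hx1 : 1 < x := by
    have : 0 < 1 / (2 * (n : ℝ)) := by positivity
    linarith
  obtain ⟨p₁, hp₁⟩ := exists_nat_gt (((2 ^ n * ((discr K).natAbs : ℝ)) ^ 2 * Zc x ^ n) ^ 4)
  refine ⟨p₁ + 4 * (n + 1) + (discr K).natAbs + 3, fun p hp hle B hB hBp inst => ?_⟩
  obtain ⟨hdeg, a, ha, hdisc⟩ := discr_comp K hp (by omega) (by omega) B hB hBp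
  have h1 := classNumber_le (K := ↥(K ⊔ B)) hx1
  have h2 : (classNumber ↥(K ⊔ B) : ℝ) < (p : ℝ) ^ ((n + 1) * (p - 1)) := by
    refine final_ineq n p a ((discr K).natAbs : ℝ) (Zc x) x _ |(discr ↥(K ⊔ B) : ℝ)| hn1
      hp.one_lt.le (by omega) ?_ (Zc_one_le x) hx ha ?_ ?_ ?_
    · exact_mod_cast Int.natAbs_pos.2 (discr_ne_zero K)
    · have h4 : |(discr ↥(K ⊔ B) : ℝ)| = ((discr ↥(K ⊔ B)).natAbs : ℝ) := by
        rw [← Int.cast_abs, Nat.cast_natAbs]
      rw [h4, hdisc]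
      simp only [Nat.cast_mul, Nat.cast_pow]
      rfl
    · refine hp₁.trans_le ?_
      exact_mod_cast (by omega : p₁ ≤ p)
    · have h3 : ∀ i : Module ℚ ↥(K ⊔ B), @finrank ℚ ↥(K ⊔ B) _ _ i = n * p := by
        intro i
        rw [hn, ← hdeg]
        congr!
        exact @Subsingleton.elim _ (subsingleton_rat_module ↥(K ⊔ B)) _ _
      rw [h3] at h1
      exact h1
  exact_mod_cast h2

end Pool.Agent.H10MU
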